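import Pool.Agent.Y70.FJ.TwoB

/-!
# Embeddings in two-generator groups (task FJ-TWO)
-/

set_option autoImplicit false

namespace Pool.Agent.Y70.FJ

open Pool.Agent.Y462.SS (Closed)
open Pool.Agent.Y110.FJ

/-! ### solvable subgroups -/

theorem solv {X : Type} [Group X] (μ : X →* Multiplicative ℤ) (s t : X) (hs : μ s = 1)
    (ht : μ t = Multiplicative.ofAdd 1)
    (hcomm : ∀ k l : ℤ, (t ^ k * s * t ^ (-k)) * (t ^ l * s * t ^ (-l)) =
      (t ^ l * s * t ^ (-l)) * (t ^ k * s * t ^ (-k))) :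
    ∃ T : Subgroup X, s ∈ T ∧ t ∈ T ∧ Group.IsSolvable T := by
  obtain ⟨B, hB⟩ : ∃ B : Subgroup X,
    B = Subgroup.closure (Set.range fun k : ℤ => t ^ k * s * t ^ (-k)) := ⟨_, rfl⟩
  have hcB : ∀ (k : ℤ) (b : X), b ∈ B → t ^ k * b * t ^ (-k) ∈ B := by
    intro k b hb
    have h1 : B ≤ B.comap (MulAut.conj (t ^ k)).toMonoidHom := by
      conv_lhs => rw [hB]
      rw [Subgroup.closure_le]
      rintro _ ⟨l, rfl⟩
      change t ^ k * (t ^ l * s * t ^ (-l)) * (t ^ k)⁻¹ ∈ B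
      have h2 : t ^ k * (t ^ l * s * t ^ (-l)) * (t ^ k)⁻¹ =
          t ^ (k + l) * s * t ^ (-(k + l)) := by
        rw [zpow_add, neg_add, zpow_add, zpow_neg, zpow_neg, ← zpow_neg t k, ← zpow_neg t l]
        have h3 : t ^ (-k) * t ^ (-l) = t ^ (-l) * t ^ (-k) := by
          rw [← zpow_add, ← zpow_add, add_comm]
        rw [h3]
        simp only [mul_assoc, zpow_neg]
      rw [h2, hB]
      exact Subgroup.subset_closure ⟨k + l, rfl⟩
    have h2 := h1 hb
    rw [Subgroup.mem_comap] at h2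
    rw [zpow_neg]
    exact h2
  have hμB : ∀ b ∈ B, μ b = 1 := by
    have h1 : B ≤ μ.ker := by
      rw [hB, Subgroup.closure_le]
      rintro _ ⟨l, rfl⟩
      rw [SetLike.mem_coe, MonoidHom.mem_ker, map_mul, map_mul, hs, mul_one, ← map_mul,
        ← zpow_add, add_neg_cancel, zpow_zero, map_one]
    exact h1
  let T : Subgroup X :=
    { carrier := {x | ∃ b ∈ B, ∃ k : ℤ, x = b * t ^ k}
      mul_mem' := by
        rintro _ _ ⟨b, hb, k, rfl⟩ ⟨b', hb', k', rfl⟩
        refine ⟨b * (t ^ k * b' * t ^ (-k)), B.mul_mem hb (hcB k b' hb'), k + k', ?_⟩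
        rw [zpow_add, zpow_neg]
        group
      one_mem' := ⟨1, B.one_mem, 0, by simp⟩
      inv_mem' := by
        rintro _ ⟨b, hb, k, rfl⟩
        refine ⟨t ^ (-k) * b⁻¹ * t ^ (-(-k)), hcB (-k) _ (B.inv_mem hb), -k, ?_⟩
        group }
  have hBT : B ≤ T := fun b hb => ⟨b, hb, 0, by simp⟩
  refine ⟨T, ⟨s, ?_, 0, by simp⟩, ⟨1, B.one_mem, 1, by simp⟩, ?_⟩
  · rw [hB]
    refine Subgroup.subset_closure ⟨0, ?_⟩
    simp
  · have hBs : Group.IsSolvable B := by
      apply Group.isSolvable_of_comm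
      have h1 : B ≤ Subgroup.centralizer (B : Set X) := by
        conv_lhs => rw [hB]
        rw [Subgroup.closure_le]
        rintro _ ⟨k, rfl⟩
        rw [SetLike.mem_coe, Subgroup.mem_centralizer_iff]
        intro b hb
        have h2 : B ≤ Subgroup.centralizer {t ^ k * s * t ^ (-k)} := by
          rw [hB, Subgroup.closure_le]
          rintro _ ⟨l, rfl⟩
          rw [SetLike.mem_coe, Subgroup.mem_centralizer_iff]
          intro x hx
          rw [Set.mem_singleton_iff] at hx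
          rw [hx]
          exact hcomm k l
        have h3 := h2 hb
        rw [Subgroup.mem_centralizer_iff] at h3
        exact (h3 _ rfl).symm
      intro a b
      exact Subtype.ext ((Subgroup.mem_centralizer_iff.1 (h1 b.2) a a.2))
    refine Group.isSolvable_of_ker_le_range (Subgroup.inclusion hBT) (μ.comp T.subtype) ?_
    rintro ⟨_, b, hb, k, rfl⟩ hx
    have h1 : μ (b * t ^ k) = 1 := hx
    rw [map_mul, hμB b hb, one_mul, map_zpow, ht, ← ofAdd_zsmul] at h1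
    have h2 : k • (1 : ℤ) = 0 := Multiplicative.ofAdd.injective h1
    have h3 : k = 0 := by simpa using h2
    refine ⟨⟨b, hb⟩, Subtype.ext ?_⟩
    change b = b * t ^ k
    rw [h3, zpow_zero, mul_one]

/-! ### arithmetic -/

theorem pow_arith {a b i : ℕ} (hi : 0 < i) (h : (2 : ℤ) ^ a - 2 ^ b = 2 ^ i - 1) : a = i := by
  obtain ⟨i', rfl⟩ := Nat.exists_eq_succ_of_ne_zero hi.ne'
  rcases Nat.eq_zero_or_pos b with rfl | hb
  · have h1 : (2 : ℤ) ^ a = 2 ^ i'.succ := by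
      rw [pow_zero] at h
      linarith
    exact Nat.pow_right_injective le_rfl (by exact_mod_cast h1)
  · exfalso
    obtain ⟨b', rfl⟩ := Nat.exists_eq_succ_of_ne_zero hb.ne'
    have h2 : (0 : ℤ) < 2 ^ b' := by positivity
    have h3 : (0 : ℤ) < 2 ^ i' := by positivity
    rw [Nat.succ_eq_add_one, Nat.succ_eq_add_one, pow_succ, pow_succ] at h
    rcases Nat.eq_zero_or_pos a with rfl | ha
    · rw [pow_zero] at h
      omega
    · obtain ⟨a', rfl⟩ := Nat.exists_eq_succ_of_ne_zero ha.ne'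
      rw [Nat.succ_eq_add_one, pow_succ] at h
      omega

theorem pow_bound {a b : ℕ} {r : ℤ} (hr : r ≠ 0) (h : (2 : ℤ) ^ a - 2 ^ b = r) :
    (2 : ℤ) ^ a ≤ 2 * |r| := by
  have h0 : ∀ c d : ℕ, c < d → 2 * (2 : ℤ) ^ c ≤ 2 ^ d := by
    intro c d hcd
    have h1 : (2 : ℤ) ^ (c + 1) ≤ 2 ^ d := pow_le_pow_right₀ (by norm_num) hcd
    rw [pow_succ] at h1
    linarith
  have h2 : (0 : ℤ) < 2 ^ a := by positivity
  rcases lt_trichotomy a b with hab | hab | hab
  · have h1 := h0 a b hab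
    have h3 : -r ≤ |r| := neg_le_abs r
    linarith
  · rw [hab, sub_self] at h
    exact absurd h.symm hr
  · have h1 := h0 b a hab
    have h3 : r ≤ |r| := le_abs_self r
    linarith

/-! ### the two generators -/

section
variable {Γ : Type} [Group Γ] (w : ℕ → Γ)

/-- the function with the value `w i` at `2 ^ i` -/
noncomputable def SS : ℤ → Γ := Function.extend (fun i : ℕ => (2 : ℤ) ^ i) w fun _ => 1

theorem SS_pow (i : ℕ) : SS w (2 ^ i) = w i :=
  Function.Injective.extend_apply (fun a b h => Nat.pow_right_injective le_rfl (by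
    have h' : (2 : ℤ) ^ a = 2 ^ b := h
    exact_mod_cast h')) _ _ _

theorem SS_ne {n : ℤ} (h : SS w n ≠ 1) : ∃ i : ℕ, n = 2 ^ i := by
  by_contra h1
  refine h (Function.extend_apply' _ _ _ ?_)
  rintro ⟨i, hi⟩
  exact h1 ⟨i, hi.symm⟩

/-- first generator -/
noncomputable def sg : U Γ := ⟨SS w, 0⟩

/-- second generator -/
def tg (Γ : Type) [Group Γ] : U Γ := ⟨fun _ => 1, 1⟩

theorem tg_zpow (k : ℤ) : tg Γ ^ k = ⟨fun _ => 1, k⟩ := by
  induction k using Int.induction_on with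
  | zero => rfl
  | succ k ih =>
    rw [zpow_add_one, ih]
    ext n
    · simp [tg]
    · simp [tg]
  | pred k ih =>
    rw [zpow_sub_one, ih]
    ext n
    · simp [tg]
    · simp [tg, sub_eq_add_neg]

theorem tg_conj (k : ℤ) (f : ℤ → Γ) :
    tg Γ ^ k * ⟨f, 0⟩ * tg Γ ^ (-k) = ⟨fun n => f (n - k), 0⟩ := by
  rw [tg_zpow, tg_zpow]
  ext n
  · simp
  · simp

theorem comm_sg {i : ℕ} (hi : 0 < i) :
    sg w * (tg Γ ^ ((2 : ℤ) ^ i - 1) * sg w * tg Γ ^ (-((2 : ℤ) ^ i - 1))) * (sg w)⁻¹ *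
      (tg Γ ^ ((2 : ℤ) ^ i - 1) * sg w * tg Γ ^ (-((2 : ℤ) ^ i - 1)))⁻¹ =
    ⟨(dl ((2 : ℤ) ^ i) (w i * w 0 * (w i)⁻¹ * (w 0)⁻¹)).1, 0⟩ := by
  rw [sg, tg_conj]
  ext n
  · have h1 : ((⟨SS w, 0⟩ : U Γ) * ⟨fun n => SS w (n - ((2 : ℤ) ^ i - 1)), 0⟩ * ⟨SS w, 0⟩⁻¹ *
        ⟨fun n => SS w (n - ((2 : ℤ) ^ i - 1)), 0⟩⁻¹).f n =
        SS w n * SS w (n - ((2 : ℤ) ^ i - 1)) * (SS w n)⁻¹ * (SS w (n - ((2 : ℤ) ^ i - 1)))⁻¹ := by
      simp
    rw [h1]
    change _ = if n = (2 : ℤ) ^ i then _ else _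
    by_cases hn : n = (2 : ℤ) ^ i
    · have h2 : (2 : ℤ) ^ i - ((2 : ℤ) ^ i - 1) = 2 ^ 0 := by ring
      rw [if_pos hn, hn, h2, SS_pow, SS_pow]
    · rw [if_neg hn]
      by_cases h2 : SS w n = 1
      · rw [h2]
        simp
      · by_cases h3 : SS w (n - ((2 : ℤ) ^ i - 1)) = 1
        · rw [h3]
          simp
        · exfalso
          obtain ⟨a, ha⟩ := SS_ne w h2
          obtain ⟨b, hb⟩ := SS_ne w h3
          apply hn
          rw [ha, pow_arith (a := a) (b := b) hi (by rw [← ha, ← hb]; ring)]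
  · simp

/-- the group with two generators -/
def HH : Subgroup (U Γ) := Subgroup.closure {sg w, tg Γ}

theorem sg_mem : sg w ∈ HH w := Subgroup.subset_closure (Or.inl rfl)

theorem tg_mem : tg Γ ∈ HH w := Subgroup.subset_closure (Or.inr rfl)

theorem dl_mem {i : ℕ} (hi : 0 < i) :
    (⟨(dl 0 (w i * w 0 * (w i)⁻¹ * (w 0)⁻¹)).1, 0⟩ : U Γ) ∈ HH w := by
  have h1 : ∀ k : ℤ, tg Γ ^ k ∈ HH w := fun k => (HH w).zpow_mem (tg_mem w) k
  have h2 := comm_sg w hi
  have h3 : (⟨(dl ((2 : ℤ) ^ i) (w i * w 0 * (w i)⁻¹ * (w 0)⁻¹)).1, 0⟩ : U Γ) ∈ HH w := by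
    rw [← h2]
    have h4 := (HH w).mul_mem ((HH w).mul_mem (h1 ((2 : ℤ) ^ i - 1)) (sg_mem w))
      (h1 (-((2 : ℤ) ^ i - 1)))
    exact (HH w).mul_mem ((HH w).mul_mem ((HH w).mul_mem (sg_mem w) h4)
      ((HH w).inv_mem (sg_mem w))) ((HH w).inv_mem h4)
  have h5 := (HH w).mul_mem ((HH w).mul_mem (h1 (-(2 : ℤ) ^ i)) h3) (h1 (-(-(2 : ℤ) ^ i)))
  rw [tg_conj] at h5
  have h6 : (fun n => (dl ((2 : ℤ) ^ i) (w i * w 0 * (w i)⁻¹ * (w 0)⁻¹)).1 (n - -(2 : ℤ) ^ i)) =
      (dl 0 (w i * w 0 * (w i)⁻¹ * (w 0)⁻¹)).1 := by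
    funext n
    rw [dl_apply, dl_apply]
    by_cases hn : n = 0
    · rw [if_pos hn, if_pos (by rw [hn]; ring)]
    · rw [if_neg hn, if_neg (fun h => hn (by linarith))]
  rw [h6] at h5
  exact h5

/-! ### the normal subgroup of functions with finite support -/

/-- the functions with finite support, as a subgroup -/
def DD (Γ : Type) [Group Γ] : Subgroup (U Γ) where
  carrier := {x | x.m = 0 ∧ x.f ∈ N0 Γ}
  mul_mem' := by
    rintro x y ⟨hx, hx'⟩ ⟨hy, hy'⟩
    refine ⟨by simp [hx, hy], ?_⟩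
    have h1 : (x * y).f = x.f * y.f := by
      funext n
      simp [hx]
    rw [h1]
    exact (N0 Γ).mul_mem hx' hy'
  one_mem' := ⟨rfl, (N0 Γ).one_mem⟩
  inv_mem' := by
    rintro x ⟨hx, hx'⟩
    refine ⟨by simp [hx], ?_⟩
    have h1 : (x⁻¹).f = x.f⁻¹ := by
      funext n
      simp [hx]
    rw [h1]
    exact (N0 Γ).inv_mem hx'

instance : (DD Γ).Normal := by
  constructor
  rintro x ⟨hx, hx'⟩ g
  refine ⟨by simp [hx], ?_⟩
  have h1 : {n | x.f n ≠ 1}.Finite := hx'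
  change {n | (g * x * g⁻¹).f n ≠ 1}.Finite
  refine (h1.preimage ((sub_left_injective (b := g.m)).injOn)).subset fun n hn => ?_
  intro h2
  apply hn
  have h3 : x.f (n - g.m) = 1 := h2
  simp [h3, hx]

/-- the translation part -/
def mu0 (Γ : Type) [Group Γ] : U Γ →* Multiplicative ℤ where
  toFun x := Multiplicative.ofAdd x.m
  map_one' := rfl
  map_mul' _ _ := rfl

theorem exists_T : ∃ T : Subgroup (U Γ ⧸ DD Γ), QuotientGroup.mk' (DD Γ) (sg w) ∈ T ∧
    QuotientGroup.mk' (DD Γ) (tg Γ) ∈ T ∧ Group.IsSolvable T := by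
  refine solv (QuotientGroup.lift (DD Γ) (mu0 Γ) fun x hx => ?_) _ _ ?_ ?_ ?_
  · change Multiplicative.ofAdd x.m = 1
    rw [hx.1]
    rfl
  · rfl
  · rfl
  · intro k l
    rw [← map_zpow, ← map_zpow, ← map_zpow, ← map_zpow, ← map_mul, ← map_mul, ← map_mul,
      ← map_mul, ← map_mul, ← map_mul, sg, tg_conj, tg_conj]
    refine QuotientGroup.eq.2 ⟨by simp, ?_⟩
    refine (Set.finite_Icc k (k + 2 * |l - k|)).subset fun n hn => ?_
    have h1 : ((((⟨fun n => SS w (n - k), 0⟩ : U Γ) * ⟨fun n => SS w (n - l), 0⟩)⁻¹ *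
        (⟨fun n => SS w (n - l), 0⟩ * ⟨fun n => SS w (n - k), 0⟩)).f n) =
        (SS w (n - k) * SS w (n - l))⁻¹ * (SS w (n - l) * SS w (n - k)) := by
      simp
    have h2 : (SS w (n - k) * SS w (n - l))⁻¹ * (SS w (n - l) * SS w (n - k)) ≠ 1 := by
      rw [← h1]
      exact hn
    have h3 : SS w (n - k) ≠ 1 := fun h => h2 (by rw [h]; simp)
    have h4 : SS w (n - l) ≠ 1 := fun h => h2 (by rw [h]; simp)
    have h5 : l - k ≠ 0 := by
      intro h
      have h6 : l = k := by linarith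
      rw [h6] at h2
      exact h2 (by simp)
    obtain ⟨a, ha⟩ := SS_ne w h3
    obtain ⟨b, hb⟩ := SS_ne w h4
    have h7 := pow_bound (a := a) (b := b) h5 (by rw [← ha, ← hb]; ring)
    have h8 : (0 : ℤ) < 2 ^ a := by positivity
    rw [← ha] at h7 h8
    exact ⟨by linarith, by linarith⟩

theorem C_HH (hI : S_INN) {C : ∀ (G : Type) [Group G], Prop} (hC : ClosedE C)
    (hs : ∀ (G : Type) [Group G], Group.IsSolvable G → C G) (hΓ : C Γ) : C (HH w) := by
  obtain ⟨T, h1, h2, h3⟩ := exists_T w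
  have h4 : HH w ≤ T.comap (QuotientGroup.mk' (DD Γ)) := by
    rw [HH, Subgroup.closure_le]
    rintro x (rfl | hx)
    · exact h1
    · rw [Set.mem_singleton_iff] at hx
      rw [hx]
      exact h2
  refine hC.base.of_injective _ _ (Subgroup.inclusion h4) (Subgroup.inclusion_injective h4) ?_
  let j : N0 Γ →* T.comap (QuotientGroup.mk' (DD Γ)) :=
    { toFun := fun f => ⟨⟨f.1, 0⟩, by
        have h5 : QuotientGroup.mk' (DD Γ) ⟨f.1, 0⟩ = 1 :=
          (QuotientGroup.eq_one_iff _).2 ⟨rfl, f.2⟩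
        rw [Subgroup.mem_comap, h5]
        exact T.one_mem⟩
      map_one' := rfl
      map_mul' := fun f g => Subtype.ext (U.ext (funext fun n => by simp) (by simp)) }
  refine lemA hI hC hΓ (Subgroup.subtype _) (Subgroup.subtype_injective _) j (fun f => rfl)
    ((QuotientGroup.mk' (DD Γ)).subgroupComap T) ?_ (hs _ h3)
  ext x
  constructor
  · rintro ⟨f, rfl⟩
    refine Subtype.ext ?_
    exact (QuotientGroup.eq_one_iff _).2 ⟨rfl, f.2⟩
  · intro hx
    have h5 : (QuotientGroup.mk' (DD Γ)) x.1 = 1 := congrArg Subtype.val hx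
    have h6 := (QuotientGroup.eq_one_iff _).1 h5
    exact ⟨⟨x.1.f, h6.2⟩, Subtype.ext (U.ext rfl h6.1.symm)⟩

end

/-- embeddings in groups with two generators, from `S_INN` only -/
theorem t_two' (hI : S_INN) : S_TWO := by
  intro C hC hs G _ _ hG
  obtain ⟨W, _, i, w, hi, hW, hw⟩ := exists_comm hI hC G hG
  have hmem : ∀ g : G, (⟨(dl 0 (i g)).1, 0⟩ : U W) ∈ HH w := by
    intro g
    obtain ⟨k, hk, hkg⟩ := hw g
    rw [← hkg]
    exact dl_mem w hk
  let F : G →* HH w :=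
    { toFun := fun g => ⟨⟨(dl 0 (i g)).1, 0⟩, hmem g⟩
      map_one' := by
        refine Subtype.ext (U.ext ?_ rfl)
        change (dl 0 (i 1)).1 = 1
        rw [map_one, map_one]
        rfl
      map_mul' := fun g h => by
        refine Subtype.ext (U.ext (funext fun n => ?_) ?_)
        · change (dl 0 (i (g * h))).1 n = (dl 0 (i g)).1 n * (dl 0 (i h)).1 (n - 0)
          rw [map_mul, map_mul, sub_zero]
          rfl
        · simp }
  refine ⟨HH w, inferInstance, F, ⟨sg w, sg_mem w⟩, ⟨tg W, tg_mem w⟩, ?_, ?_,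
    C_HH w hI hC hs hW⟩
  · intro g h hgh
    have h1 : (dl 0 (i g)).1 = (dl 0 (i h)).1 := congrArg (fun x : HH w => x.1.f) hgh
    exact hi (dl_injective 0 (Subtype.ext h1))
  · have h1 : ({⟨sg w, sg_mem w⟩, ⟨tg W, tg_mem w⟩} : Set (HH w)) =
        ((↑) : Subgroup.closure {sg w, tg W} → U W) ⁻¹' {sg w, tg W} := by
      ext x
      simp only [Set.mem_insert_iff, Set.mem_singleton_iff]
      constructor
      · rintro (rfl | rfl)
        · exact Or.inl rfl
        · exact Or.inr rfl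
      · rintro (h | h)
        · exact Or.inl (Subtype.ext h)
        · exact Or.inr (Subtype.ext h)
    rw [h1]
    exact Subgroup.closure_closure_coe_preimage

/-- **embeddings in groups with two generators** -/
theorem t_two (hI : S_INN) (_ : S_NOM) : S_TWO := t_two' hI

end Pool.Agent.Y70.FJ
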