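import Pool.Agent.Y110.FJ.Stm4
import Pool.Agent.Helper741.GeomRep
import Pool.Agent.Helper741.Tits

/-!
# Parabolic subgroups of Coxeter groups of arbitrary rank (task FJ-COXI)
-/

set_option autoImplicit false

namespace Pool.Agent.Y70.FJ.Cox

open Real Pool.Agent.Helper741

/-! ### the geometric representation in arbitrary rank -/

section
variable {B : Type} (M : CoxeterMatrix B)

/-- basis vector -/
noncomputable abbrev fe (i : B) : B →₀ ℝ := Finsupp.single i 1

/-- coroot functional `v ↦ 2 (e_i, v)` -/
noncomputable def cor (i : B) : (B →₀ ℝ) →ₗ[ℝ] ℝ :=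
  Finsupp.linearCombination ℝ (fun j => -2 * cc M i j)

@[simp] lemma cor_fe (i j : B) : cor M i (fe j) = -2 * cc M i j := by
  rw [cor, Finsupp.linearCombination_single, one_smul]

/-- reflection -/
noncomputable def sf (i : B) : Module.End ℝ (B →₀ ℝ) := Module.preReflection (fe i) (cor M i)

lemma sf_apply (i : B) (v : B →₀ ℝ) : sf M i v = v - cor M i v • fe i := rfl

lemma sf_sf (i : B) (v : B →₀ ℝ) : sf M i (sf M i v) = v := by
  have h : cor M i (fe i) = 2 := by simp
  exact Module.involutive_preReflection h v

lemma sf_sq (i : B) : sf M i * sf M i = 1 := by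
  apply LinearMap.ext
  intro v
  exact sf_sf M i v

lemma sf_fe_self (i : B) : sf M i (fe i) = - fe i := by
  rw [sf_apply, cor_fe, cc_self]
  module

lemma sf_fe (i j : B) : sf M j (fe i) = fe i + (2 * cc M i j) • fe j := by
  rw [sf_apply, cor_fe, cc_symm]
  module

open CoxeterSystem in
lemma prod_alt_fe (i j : B) (k : ℕ) :
    (((alternatingWord i j k).map (sf M)).prod) (fe i) =
      if Even k then qs (cc M i j) (k + 1) • fe i + qs (cc M i j) k • fe j
      else qs (cc M i j) (k + 1) • fe j + qs (cc M i j) k • fe i := by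
  induction k with
  | zero => simp [alternatingWord]
  | succ k ih =>
    rw [alternatingWord_succ', List.map_cons, List.prod_cons, Module.End.mul_apply, ih]
    by_cases hk : Even k
    · have hk1 : ¬ Even (k + 1) := by simpa [Nat.even_add_one] using hk
      simp only [hk, hk1, if_true, if_false]
      rw [map_add, map_smul, map_smul, sf_fe, sf_fe_self, qs_add_two]
      module
    · have hk1 : Even (k + 1) := by simpa [Nat.even_add_one] using hk
      simp only [hk, hk1, if_true, if_false]
      rw [map_add, map_smul, map_smul, sf_fe, sf_fe_self, qs_add_two, cc_symm M j i]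
      module

lemma pow_fe_left {i j : B} (h : i ≠ j) (h0 : M i j ≠ 0) :
    ((sf M i * sf M j) ^ M i j) (fe i) = fe i := by
  have h3 : ∀ m : ℕ, (((CoxeterSystem.alternatingWord i j (2 * m)).map (sf M)).prod) =
      (sf M i * sf M j) ^ m := by
    intro m
    induction m with
    | zero => simp [CoxeterSystem.alternatingWord]
    | succ m ih =>
      have h1 : 2 * (m + 1) = 2 * m + 1 + 1 := by ring
      rw [h1, CoxeterSystem.alternatingWord_succ', CoxeterSystem.alternatingWord_succ']
      have he : Even (2 * m) := even_two_mul m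
      have ho : ¬ Even (2 * m + 1) := by simp
      simp only [he, ho, if_true, if_false, List.map_cons, List.prod_cons, ih]
      rw [pow_succ', mul_assoc]
  rw [← h3, prod_alt_fe]
  have hs := sin_pos_of_ne M h h0
  have hm : (M i j : ℝ) ≠ 0 := by exact_mod_cast h0
  have h1 : qs (cc M i j) (2 * M i j) = 0 := by
    have h1 := qs_sin (π / (M i j : ℝ)) (2 * M i j)
    have h2 : ((2 * M i j : ℕ) : ℝ) * (π / (M i j : ℝ)) = 2 * π := by
      push_cast; field_simp
    rw [h2, sin_two_pi] at h1
    exact (mul_eq_zero.mp h1).resolve_right hs.ne'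
  have h2 : qs (cc M i j) (2 * M i j + 1) = 1 := by
    have h1 := qs_sin (π / (M i j : ℝ)) (2 * M i j + 1)
    have h2 : ((2 * M i j + 1 : ℕ) : ℝ) * (π / (M i j : ℝ)) = (π / (M i j : ℝ)) + 2 * π := by
      push_cast; field_simp; ring
    rw [h2, sin_add_two_pi] at h1
    have : (qs (cc M i j) (2 * M i j + 1) - 1) * sin (π / (M i j : ℝ)) = 0 := by
      rw [sub_mul, one_mul]
      exact sub_eq_zero.mpr h1
    have := (mul_eq_zero.mp this).resolve_right hs.ne'
    linarith
  simp [h1, h2]

lemma pow_fe_right {i j : B} (h : i ≠ j) (h0 : M i j ≠ 0) :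
    ((sf M i * sf M j) ^ M i j) (fe j) = fe j := by
  have h1 := pow_fe_left M h.symm (by rwa [M.symmetric])
  have h2 : (sf M i * sf M j) ^ M i j * (sf M j * sf M i) ^ M i j = 1 := by
    have : ∀ m : ℕ, (sf M i * sf M j) ^ m * (sf M j * sf M i) ^ m = 1 := by
      intro m
      induction m with
      | zero => simp
      | succ m ih =>
        rw [pow_succ, pow_succ']
        calc (sf M i * sf M j) ^ m * (sf M i * sf M j) * (sf M j * sf M i * (sf M j * sf M i) ^ m)
            = (sf M i * sf M j) ^ m * (sf M i * (sf M j * sf M j) * sf M i) *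
              (sf M j * sf M i) ^ m := by simp only [mul_assoc]
          _ = 1 := by rw [sf_sq, mul_one, sf_sq, mul_one, ih]
    exact this _
  rw [M.symmetric j i] at h1
  conv_lhs => rw [← h1]
  rw [← Module.End.mul_apply, h2, Module.End.one_apply]

lemma sf_liftable : M.IsLiftable (sf M) := by
  intro i j
  by_cases hij : i = j
  · subst hij; rw [sf_sq, one_pow]
  by_cases h0 : M i j = 0
  · rw [h0, pow_zero]
  apply LinearMap.ext
  intro v
  have hs := sin_pos_of_ne M hij h0
  set c := cc M i j with hc
  have hc2 : 1 - c ^ 2 ≠ 0 := by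
    have : sin (π / (M i j : ℝ)) ^ 2 + c ^ 2 = 1 := sin_sq_add_cos_sq _
    nlinarith
  set p := cor M i v with hp
  set r := cor M j v with hr
  set a := (p + c * r) / (2 * (1 - c ^ 2)) with ha
  set b := (c * p + r) / (2 * (1 - c ^ 2)) with hb
  set v' := v - a • fe i - b • fe j with hv'
  have hcj : cc M j i = c := cc_symm M j i
  have e1 : cor M i v' = 0 := by
    rw [hv', map_sub, map_sub, map_smul, map_smul, cor_fe, cor_fe, cc_self, ← hp, ← hc,
      smul_eq_mul, smul_eq_mul, ha, hb]
    field_simp
    ring
  have e2 : cor M j v' = 0 := by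
    rw [hv', map_sub, map_sub, map_smul, map_smul, cor_fe, cor_fe, cc_self, ← hr, hcj,
      smul_eq_mul, smul_eq_mul, ha, hb]
    field_simp
    ring
  have s1 : sf M i v' = v' := by rw [sf_apply, e1]; simp
  have s2 : sf M j v' = v' := by rw [sf_apply, e2]; simp
  have s3 : ∀ m : ℕ, ((sf M i * sf M j) ^ m) v' = v' := by
    intro m
    induction m with
    | zero => simp
    | succ m ih => rw [pow_succ, Module.End.mul_apply, Module.End.mul_apply, s2, s1, ih]
  have hv : v = v' + a • fe i + b • fe j := by rw [hv']; abel
  rw [Module.End.one_apply]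
  conv_lhs => rw [hv]
  rw [map_add, map_add, map_smul, map_smul, s3, pow_fe_left M hij h0, pow_fe_right M hij h0, ← hv]

/-- The geometric representation. -/
noncomputable def geof : M.Group →* Module.End ℝ (B →₀ ℝ) :=
  M.toCoxeterSystem.lift ⟨sf M, sf_liftable M⟩

lemma geof_simple (i : B) : geof M (M.simple i) = sf M i := by
  have h := M.toCoxeterSystem.lift_apply_simple (sf_liftable M) i
  rwa [M.toCoxeterSystem_simple] at h

end

/-! ### finite rank -/

section
variable {V W : Type} (M : CoxeterMatrix V) (M' : CoxeterMatrix W) {j : V → W}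

/-- extension by zero -/
noncomputable def ext [Fintype V] (j : V → W) : (V → ℝ) →ₗ[ℝ] (W →₀ ℝ) :=
  ∑ i, (LinearMap.toSpanSingleton ℝ (W →₀ ℝ) (fe (j i))).comp (LinearMap.proj i)

lemma ext_apply [Fintype V] (v : V → ℝ) : ext j v = ∑ i, v i • fe (j i) := by
  simp [ext, LinearMap.sum_apply]

lemma ext_injective [Fintype V] (hj : Function.Injective j) : Function.Injective (ext j) := by
  classical
  intro v v' h
  funext k
  have h1 : ∀ u : V → ℝ, (ext j u) (j k) = u k := by
    intro u
    rw [ext_apply, Finsupp.finsetSum_apply, Finset.sum_eq_single k]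
    · simp
    · intro i _ hik
      rw [Finsupp.smul_apply, Finsupp.single_apply, if_neg (fun h => hik (hj h)), smul_zero]
    · intro h
      exact absurd (Finset.mem_univ k) h
  rw [← h1 v, ← h1 v', h]

theorem fin_case [Fintype V] [DecidableEq V] (hj : Function.Injective j)
    (hM : ∀ v w, M' (j v) (j w) = M v w) (f : M.Group →* M'.Group)
    (hf : ∀ v, f (M.simple v) = M'.simple (j v)) : Function.Injective f := by
  have hcc : ∀ i k, cc M' (j i) (j k) = cc M i k := by
    intro i k
    unfold cc
    rw [hM]
  have hee : ∀ i, ext j (ee i) = fe (j i) := by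
    intro i
    rw [ext_apply, Finset.sum_eq_single i]
    · simp
    · intro k _ hki
      simp [hki]
    · intro h
      exact absurd (Finset.mem_univ i) h
  have hcor : ∀ i (v : V → ℝ), cor M' (j i) (ext j v) = coroot M i v := by
    intro i v
    rw [ext_apply, map_sum, coroot, LinearMap.sum_apply]
    refine Finset.sum_congr rfl fun k _ => ?_
    rw [map_smul, cor_fe, hcc, LinearMap.smul_apply, LinearMap.proj_apply, smul_eq_mul,
      smul_eq_mul]
    ring
  have key : ∀ w : M.Group, ∀ v : V → ℝ,
      geof M' (f w) (ext j v) = ext j (geo M.toCoxeterSystem w v) := by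
    intro w
    refine M.toCoxeterSystem.simple_induction (p := fun w => ∀ v : V → ℝ,
      geof M' (f w) (ext j v) = ext j (geo M.toCoxeterSystem w v)) w ?_ ?_ ?_
    · intro i v
      rw [geo_simple, M.toCoxeterSystem_simple, hf, geof_simple, sf_apply, hcor, sg_apply, map_sub,
        map_smul, hee]
    · intro v
      rw [map_one, map_one, map_one]
      rfl
    · intro w w' h h' v
      rw [map_mul, map_mul, map_mul, Module.End.mul_apply, Module.End.mul_apply, h', h]
  rw [injective_iff_map_eq_one]
  intro w hw
  apply geo_injective M.toCoxeterSystem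
  rw [map_one]
  apply LinearMap.ext
  intro v
  apply ext_injective hj
  rw [← key, hw, map_one]
  rfl

end

/-! ### reduction to finite rank -/

section
variable {V : Type} (M : CoxeterMatrix V)

/-- restriction to a finite set -/
def restr (S : Finset V) : CoxeterMatrix S where
  M := Matrix.of fun i k => M i k
  isSymm := by
    ext i k
    exact M.symmetric k i
  diagonal i := M.diagonal i
  off_diagonal i k h := M.off_diagonal i k fun h' => h (Subtype.ext h')

lemma restr_liftable (S : Finset V) : (restr M S).IsLiftable (fun i : S => M.simple (i : V)) := by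
  intro i k
  have h := M.toCoxeterSystem.simple_mul_simple_pow (i : V) (k : V)
  rw [M.toCoxeterSystem_simple] at h
  exact h

/-- the homomorphism from the restriction -/
def incl (S : Finset V) : (restr M S).Group →* M.Group :=
  (restr M S).toCoxeterSystem.lift ⟨_, restr_liftable M S⟩

lemma incl_simple (S : Finset V) (i : S) : incl M S ((restr M S).simple i) = M.simple (i : V) := by
  have h := (restr M S).toCoxeterSystem.lift_apply_simple (restr_liftable M S) i
  rwa [(restr M S).toCoxeterSystem_simple] at h

lemma mem_range (S : Finset V) (ω : List V) (h : ∀ i ∈ ω, i ∈ S) :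
    M.toCoxeterSystem.wordProd ω ∈ (incl M S).range := by
  induction ω with
  | nil =>
    rw [CoxeterSystem.wordProd_nil]
    exact one_mem _
  | cons i ω ih =>
    rw [CoxeterSystem.wordProd_cons, M.toCoxeterSystem_simple]
    refine mul_mem ⟨(restr M S).simple ⟨i, h i (by simp)⟩, incl_simple M S _⟩
      (ih fun k hk => h k (List.mem_cons_of_mem _ hk))

end

theorem t_coxi : Pool.Agent.Y110.FJ.S_COXI := by
  classical
  intro V W M M' j hj hM f hf
  rw [injective_iff_map_eq_one]
  intro w hw
  obtain ⟨ω, rfl⟩ := M.toCoxeterSystem.wordProd_surjective w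
  obtain ⟨w', hw'⟩ := mem_range M ω.toFinset ω (fun i hi => List.mem_toFinset.2 hi)
  have h1 : Function.Injective (f.comp (incl M ω.toFinset)) := by
    refine fin_case (restr M ω.toFinset) M' (j := fun i => j i)
      (fun a b h => Subtype.ext (hj h)) (fun v w => hM v w) _ (fun v => ?_)
    rw [MonoidHom.comp_apply, incl_simple, hf]
  have h2 : w' = 1 := h1 (by rw [MonoidHom.comp_apply, hw', hw, map_one])
  rw [← hw', h2, map_one]

end Pool.Agent.Y70.FJ.Cox
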