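import Pool.Agent.Y70.FJ.TwoA

/-!
# Embeddings in two-generator groups: embedding in a group such that all elements are commutators
-/

set_option autoImplicit false

namespace Pool.Agent.Y70.FJ

open Pool.Agent.Y462.SS (Closed)
open Pool.Agent.Y110.FJ

section
variable (Γ : Type) [Group Γ]

/-- functions which are trivial on the left and constant on the right, with the value on the
right -/
def K1 : Subgroup (U Γ × Γ) where
  carrier := {x | (∃ a : ℤ, ∀ n < a, x.1.f n = 1) ∧ ∃ b : ℤ, ∀ n ≥ b, x.1.f n = x.2}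
  mul_mem' := by
    rintro x y ⟨⟨a, ha⟩, b, hb⟩ ⟨⟨a', ha'⟩, b', hb'⟩
    refine ⟨⟨min a (a' + x.1.m), fun n hn => ?_⟩, max b (b' + x.1.m), fun n hn => ?_⟩
    · have h1 := ha n (by omega)
      have h2 := ha' (n - x.1.m) (by omega)
      simp [h1, h2]
    · have h1 := hb n (by omega)
      have h2 := hb' (n - x.1.m) (by omega)
      simp [h1, h2]
  one_mem' := ⟨⟨0, fun n _ => rfl⟩, 0, fun n _ => rfl⟩
  inv_mem' := by
    rintro x ⟨⟨a, ha⟩, b, hb⟩
    refine ⟨⟨a - x.1.m, fun n hn => ?_⟩, b - x.1.m, fun n hn => ?_⟩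
    · have h1 := ha (n + x.1.m) (by omega)
      simp [h1]
    · have h1 := hb (n + x.1.m) (by omega)
      simp [h1]

variable {Γ}

/-- the functions with finite support -/
def j1 : N0 Γ →* K1 Γ where
  toFun f := ⟨(⟨f.1, 0⟩, 1), by
    obtain ⟨a, ha⟩ := f.2.bddBelow
    obtain ⟨b, hb⟩ := f.2.bddAbove
    refine ⟨⟨a, fun n hn => ?_⟩, b + 1, fun n hn => ?_⟩
    · by_contra h
      have h1 : a ≤ n := ha h
      omega
    · by_contra h
      have h1 : n ≤ b := hb h
      omega⟩
  map_one' := rfl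
  map_mul' f g := by
    refine Subtype.ext (Prod.ext (U.ext (funext fun n => ?_) ?_) ?_)
    · simp
    · simp
    · simp

/-- the quotient -/
def q1 : K1 Γ →* Γ × Multiplicative ℤ where
  toFun x := (x.1.2, Multiplicative.ofAdd x.1.1.m)
  map_one' := rfl
  map_mul' x y := rfl

theorem j1_range : (j1 : N0 Γ →* K1 Γ).range = (q1 : K1 Γ →* _).ker := by
  ext x
  constructor
  · rintro ⟨f, rfl⟩
    rfl
  · intro hx
    have h1 : x.1.2 = 1 := congrArg Prod.fst hx
    have h2 : x.1.1.m = 0 := Multiplicative.ofAdd.injective (congrArg Prod.snd hx)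
    obtain ⟨⟨a, ha⟩, b, hb⟩ := x.2
    refine ⟨⟨x.1.1.f, (Set.finite_Icc a b).subset fun n hn => ?_⟩,
      Subtype.ext (Prod.ext (U.ext rfl h2.symm) h1.symm)⟩
    constructor
    · by_contra h
      exact hn (ha n (not_le.1 h))
    · by_contra h
      exact hn ((hb n (not_le.1 h).le).trans h1)

theorem C_K1 (hI : S_INN) {C : ∀ (G : Type) [Group G], Prop} (hC : ClosedE C) (hΓ : C Γ) :
    C (K1 Γ) := by
  refine lemA hI hC hΓ ((MonoidHom.fst _ _).comp (K1 Γ).subtype) ?_ j1 (fun f => rfl) q1 j1_range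
    (hC.base.prod _ _ hΓ hC.base.int)
  intro x y h
  have h1 : x.1.1 = y.1.1 := h
  obtain ⟨-, b, hb⟩ := x.2
  obtain ⟨-, b', hb'⟩ := y.2
  have h2 : x.1.2 = y.1.2 := by
    rw [← hb (max b b') (le_max_left _ _), ← hb' (max b b') (le_max_right _ _), h1]
  exact Subtype.ext (Prod.ext h1 h2)

/-- functions with support in one point -/
def dl (p : ℤ) : Γ →* N0 Γ where
  toFun g := ⟨fun n => if n = p then g else 1, (Set.finite_singleton p).subset fun n hn => by
    by_contra h
    exact hn (if_neg h)⟩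
  map_one' := Subtype.ext (funext fun n => by simp)
  map_mul' g h := Subtype.ext (funext fun n => by
    by_cases hn : n = p
    · simp [hn]
    · simp [hn])

theorem dl_apply (p : ℤ) (g : Γ) (n : ℤ) : (dl p g).1 n = if n = p then g else 1 := rfl

theorem dl_injective (p : ℤ) : Function.Injective (dl p : Γ →* N0 Γ) := by
  intro g h hgh
  have h1 := congrFun (congrArg Subtype.val hgh) p
  rw [dl_apply, dl_apply, if_pos rfl, if_pos rfl] at h1
  exact h1

/-- the functions which are constant on the right and `1` on the left -/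
def cst (g : Γ) : K1 Γ := ⟨(⟨fun n => if 0 ≤ n then g else 1, 0⟩, g),
  ⟨0, fun n hn => if_neg (by omega)⟩, 0, fun n hn => if_pos hn⟩

/-- the shift -/
def sft : K1 Γ := ⟨(⟨fun _ => 1, 1⟩, 1), ⟨0, fun n hn => rfl⟩, 0, fun n hn => rfl⟩

theorem cst_comm (g : Γ) : cst g * sft * (cst g)⁻¹ * sft⁻¹ = j1 (dl 0 g) := by
  refine Subtype.ext (Prod.ext (U.ext (funext fun n => ?_) ?_) ?_)
  · have h1 : (cst g * sft * (cst g)⁻¹ * sft⁻¹ : K1 Γ).1.1.f n =
        (if 0 ≤ n then g else 1) * (if 0 ≤ n - 1 then g else 1)⁻¹ := by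
      simp [cst, sft]
    have h2 : (j1 (dl 0 g) : K1 Γ).1.1.f n = if n = 0 then g else 1 := rfl
    rw [h1, h2]
    rcases lt_trichotomy n 0 with h | h | h
    · rw [if_neg (by omega), if_neg (by omega), if_neg (by omega)]
      simp
    · rw [if_pos (by omega), if_neg (by omega), if_pos h]
      simp
    · rw [if_pos (by omega), if_pos (by omega), if_neg (by omega)]
      simp
  · simp [cst, sft, j1]
  · simp [cst, sft, j1]

theorem j1_injective : Function.Injective (j1 : N0 Γ →* K1 Γ) := by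
  intro f g h
  have h1 : f.1 = g.1 := congrArg (fun x : K1 Γ => x.1.1.f) h
  exact Subtype.ext h1

/-- **embedding in a group such that all elements are commutators with one element** -/
theorem exists_comm (hI : S_INN) {C : ∀ (G : Type) [Group G], Prop} (hC : ClosedE C) (G : Type)
    [Group G] [Countable G] (hG : C G) :
    ∃ (W : Type) (_ : Group W) (i : G →* W) (w : ℕ → W), Function.Injective i ∧ C W ∧
      ∀ g, ∃ k, 0 < k ∧ w k * w 0 * (w k)⁻¹ * (w 0)⁻¹ = i g := by
  obtain ⟨e, he⟩ := exists_surjective_nat G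
  refine ⟨K1 G, inferInstance, j1.comp (dl 0),
    fun k => Nat.casesOn k sft fun k => cst (e k), ?_, C_K1 hI hC hG, ?_⟩
  · exact j1_injective.comp (dl_injective 0)
  · intro g
    obtain ⟨k, rfl⟩ := he g
    exact ⟨k + 1, Nat.succ_pos k, cst_comm (e k)⟩

end

end Pool.Agent.Y70.FJ
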