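import Pool.Agent.Y110.FJ.Stm2
import Pool.Agent.Y430.SS.Lf

/-!
# Embeddings in two-generator groups: subgroups of `(ℤ → Γ) ⋊ ℤ` which contain the functions with
finite support
-/

set_option autoImplicit false

namespace Pool.Agent.Y70.FJ

open Pool.Agent.Y462.SS (Closed)
open Pool.Agent.Y110.FJ

/-- the group `(ℤ → Γ) ⋊ ℤ` -/
@[ext] structure U (Γ : Type) where
  f : ℤ → Γ
  m : ℤ

namespace U

variable {Γ : Type} [Group Γ]

instance : Mul (U Γ) := ⟨fun a b => ⟨fun n => a.f n * b.f (n - a.m), a.m + b.m⟩⟩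
instance : One (U Γ) := ⟨⟨fun _ => 1, 0⟩⟩
instance : Inv (U Γ) := ⟨fun a => ⟨fun n => (a.f (n + a.m))⁻¹, -a.m⟩⟩

@[simp] theorem mul_f (a b : U Γ) (n : ℤ) : (a * b).f n = a.f n * b.f (n - a.m) := rfl
@[simp] theorem mul_m (a b : U Γ) : (a * b).m = a.m + b.m := rfl
@[simp] theorem one_f (n : ℤ) : (1 : U Γ).f n = 1 := rfl
@[simp] theorem one_m : (1 : U Γ).m = 0 := rfl
@[simp] theorem inv_f (a : U Γ) (n : ℤ) : (a⁻¹).f n = (a.f (n + a.m))⁻¹ := rfl
@[simp] theorem inv_m (a : U Γ) : (a⁻¹).m = -a.m := rfl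

instance : Group (U Γ) :=
  Group.ofLeftAxioms
    (fun a b c => by
      ext n
      · simp [mul_assoc, sub_sub]
      · simp [add_assoc])
    (fun a => by
      ext n
      · simp
      · simp)
    (fun a => by
      ext n
      · simp
      · simp)

end U

section
variable (Γ : Type) [Group Γ]

/-- functions with finite support -/
def N0 : Subgroup (ℤ → Γ) where
  carrier := {f | {n | f n ≠ 1}.Finite}
  mul_mem' := by
    intro a b ha hb
    refine (ha.union hb).subset fun n hn => ?_
    by_contra h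
    simp only [Set.mem_union, Set.mem_ofPred_eq, not_or, not_not] at h
    exact hn (by simp [h.1, h.2])
  one_mem' := by simp
  inv_mem' := by
    intro a ha
    refine ha.subset fun n hn h => hn ?_
    simp [h]

/-- functions with support in `S` -/
def NS (S : Finset ℤ) : Subgroup (ℤ → Γ) where
  carrier := {f | ∀ n ∉ S, f n = 1}
  mul_mem' := by
    intro a b ha hb n hn
    simp [ha n hn, hb n hn]
  one_mem' := fun n _ => rfl
  inv_mem' := by
    intro a ha n hn
    simp [ha n hn]

variable {Γ}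

/-- split off one coordinate -/
def spl (a : ℤ) (S : Finset ℤ) : NS Γ (insert a S) →* Γ × NS Γ S where
  toFun f := (f.1 a, ⟨fun n => if n = a then 1 else f.1 n, by
    intro n hn
    by_cases h : n = a
    · simp [h]
    · simp only [h, if_false]
      exact f.2 n (by simp [h, hn])⟩)
  map_one' := by
    ext n
    · rfl
    · simp
  map_mul' := by
    intro f g
    ext n
    · rfl
    · by_cases h : n = a
      · simp [h]
      · simp [h]

theorem spl_injective (a : ℤ) (S : Finset ℤ) :
    Function.Injective (spl a S : NS Γ (insert a S) →* Γ × NS Γ S) := by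
  intro f g h
  refine Subtype.ext (funext fun n => ?_)
  by_cases hn : n = a
  · rw [hn]
    exact congrArg Prod.fst h
  · have h1 := congrFun (congrArg (fun x => (x.2 : ℤ → Γ)) h) n
    simpa [spl, hn] using h1

variable {C : ∀ (G : Type) [Group G], Prop}

theorem C_NS (hC : Closed C) (hΓ : C Γ) (S : Finset ℤ) : C (NS Γ S) := by
  induction S using Finset.induction_on with
  | empty =>
    refine hC.of_injective _ _ (1 : NS Γ ∅ →* Multiplicative ℤ) ?_ hC.int
    intro x y _
    exact Subtype.ext (funext fun n => by rw [x.2 n (by simp), y.2 n (by simp)])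
  | insert a S ha ih =>
    exact hC.of_injective _ _ (spl a S) (spl_injective a S) (hC.prod _ _ hΓ ih)

theorem C_N0 (hC : Closed C) (hΓ : C Γ) : C (N0 Γ) := by
  refine Pool.Agent.Y430.SS.of_directed hC (N0 Γ) (Finset ℤ)
    (fun i j => ⟨i ∪ j, Finset.subset_union_left, Finset.subset_union_right⟩)
    (fun S => (NS Γ S).subgroupOf (N0 Γ)) ?_ ?_ ?_
  · intro S T hST f hf n hn
    exact hf n fun h => hn (hST h)
  · intro f
    refine ⟨f.2.toFinset, fun n hn => ?_⟩
    by_contra h
    exact hn (f.2.mem_toFinset.2 h)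
  · intro S
    refine hC.of_injective _ (NS Γ S)
      (((N0 Γ).subtype.comp ((NS Γ S).subgroupOf (N0 Γ)).subtype).codRestrict (NS Γ S)
        (fun x => x.2)) ?_ (C_NS hC hΓ S)
    intro x y h
    have h1 : x.1.1 = y.1.1 := congrArg (Subtype.val : NS Γ S → (ℤ → Γ)) h
    exact Subtype.ext (Subtype.ext h1)

/-- permutation of the coordinates -/
def perm (Γ : Type) [Group Γ] : Equiv.Perm ℤ →* MulAut (N0 Γ) where
  toFun π :=
    { toFun := fun f => ⟨fun n => f.1 (π⁻¹ n), f.2.preimage (π⁻¹).injective.injOn⟩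
      invFun := fun f => ⟨fun n => f.1 (π n), f.2.preimage π.injective.injOn⟩
      left_inv := fun f => Subtype.ext (funext fun n => by simp)
      right_inv := fun f => Subtype.ext (funext fun n => by simp)
      map_mul' := fun f g => rfl }
  map_one' := rfl
  map_mul' := fun π τ => by
    ext f n
    simp [mul_inv_rev]

theorem perm_apply (π : Equiv.Perm ℤ) (f : N0 Γ) (n : ℤ) : (perm Γ π f).1 n = f.1 (π⁻¹ n) := rfl

end

/-- powers of a product of an inner and another automorphism -/
theorem conj_mul_pow {N : Type} [Group N] (d : N) (P : MulAut N) (k : ℕ) :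
    ∃ d' : N, (MulAut.conj d * P) ^ k = MulAut.conj d' * P ^ k := by
  induction k with
  | zero => exact ⟨1, by simp⟩
  | succ k ih =>
    obtain ⟨e, he⟩ := ih
    refine ⟨d * P e, ?_⟩
    rw [pow_succ', he, pow_succ']
    ext x
    simp [mul_assoc]

/-- a permutation of finite order which extends a translation of a finite set -/
theorem exists_perm (S : Finset ℤ) (m : ℤ) :
    ∃ (π : Equiv.Perm ℤ) (k : ℕ), 0 < k ∧ π ^ k = 1 ∧ ∀ n ∈ S, π n = n + m := by
  classical
  obtain ⟨T, hT⟩ : ∃ T : Finset ℤ, T = S ∪ S.image (· + m) := ⟨_, rfl⟩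
  have h1 : ∀ n ∈ S, n ∈ T := fun n hn => by rw [hT]; exact Finset.mem_union_left _ hn
  have h2 : ∀ n ∈ S, n + m ∈ T := fun n hn => by
    rw [hT]
    exact Finset.mem_union_right _ (Finset.mem_image_of_mem _ hn)
  let e : {x : T // (x : ℤ) ∈ S} ≃ {x : T // (x : ℤ) - m ∈ S} :=
    { toFun := fun x => ⟨⟨x.1.1 + m, h2 _ x.2⟩, by simpa using x.2⟩
      invFun := fun x => ⟨⟨x.1.1 - m, h1 _ x.2⟩, x.2⟩
      left_inv := fun x => by simp
      right_inv := fun x => by simp }
  refine ⟨Equiv.Perm.ofSubtype e.extendSubtype, Fintype.card (Equiv.Perm T), Fintype.card_pos,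
    ?_, ?_⟩
  · rw [← map_pow, pow_card_eq_one, map_one]
  · intro n hn
    rw [Equiv.Perm.ofSubtype_apply_of_mem _ (h1 n hn),
      Equiv.extendSubtype_apply_of_mem e ⟨n, h1 n hn⟩ hn]
    rfl

section
variable {C : ∀ (G : Type) [Group G], Prop}

theorem inn2 (hI : S_INN) (hC : ClosedE C) {G M Q : Type} [Group G] [Group M] [Group Q]
    (j : M →* G) (hj : Function.Injective j) (q : G →* Q) (hjq : j.range = q.ker) (hM : C M)
    (hQ : C Q)
    (h : ∀ (g : G) (E : Set M), E.Finite → ∃ (σ : MulAut M) (k : ℕ) (n : M), 0 < k ∧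
      σ ^ k = MulAut.conj n ∧ ∀ x ∈ E, j (σ x) = g * j x * g⁻¹) : C G := by
  let e : M ≃* q.ker := (MonoidHom.ofInjective hj).trans (MulEquiv.subgroupCongr hjq)
  have he : ∀ x : M, ((e x : q.ker) : G) = j x := fun x => rfl
  refine hI C hC G q.ker ?_ ?_ ?_
  · exact hC.base.of_injective _ _ e.symm.toMonoidHom e.symm.injective hM
  · exact hC.base.of_injective _ _ (QuotientGroup.kerLift q) (QuotientGroup.kerLift_injective q) hQ
  · intro g E hE
    obtain ⟨σ, k, n, hk, hσ, hx⟩ := h g (e ⁻¹' E) (hE.preimage e.injective.injOn)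
    refine ⟨MulAut.congr e σ, k, e n, hk, ?_, ?_⟩
    · rw [← map_pow, hσ]
      ext x
      simp [MulAut.congr]
    · intro x hxE
      have h1 := hx (e.symm x) (by simpa using hxE)
      have h2 : ((MulAut.congr e σ x : q.ker) : G) = j (σ (e.symm x)) := rfl
      rw [h2, h1, ← he, MulEquiv.apply_symm_apply]

/-- **subgroups of `(ℤ → Γ) ⋊ ℤ` which contain the functions with finite support** -/
theorem lemA (hI : S_INN) (hC : ClosedE C) {Γ K Q : Type} [Group Γ] [Group K] [Group Q]
    (hΓ : C Γ) (ι : K →* U Γ) (hι : Function.Injective ι) (j : N0 Γ →* K)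
    (hj : ∀ f, ι (j f) = ⟨f.1, 0⟩) (q : K →* Q) (hjq : j.range = q.ker) (hQ : C Q) : C K := by
  classical
  refine inn2 hI hC j ?_ q hjq (C_N0 hC.base hΓ) hQ ?_
  · intro f g h
    have h1 : (⟨f.1, 0⟩ : U Γ) = ⟨g.1, 0⟩ := by rw [← hj, ← hj, h]
    exact Subtype.ext (congrArg U.f h1)
  · intro g E hE
    have hfin : (⋃ f ∈ E, {n | f.1 n ≠ 1}).Finite := hE.biUnion fun f _ => f.2
    obtain ⟨S, hS⟩ : ∃ S : Finset ℤ, ∀ f ∈ E, ∀ n, f.1 n ≠ 1 → n ∈ S := by
      refine ⟨hfin.toFinset, fun f hf n hn => ?_⟩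
      rw [Set.Finite.mem_toFinset, Set.mem_iUnion₂]
      exact ⟨f, hf, hn⟩
    obtain ⟨π, k, hk, hπk, hπ⟩ := exists_perm S (ι g).m
    let d : N0 Γ := ⟨fun n => if n - (ι g).m ∈ S then (ι g).f n else 1, by
      refine ((S.image (· + (ι g).m)).finite_toSet).subset fun n hn => ?_
      by_contra h
      refine hn (if_neg fun h' => h ?_)
      simp only [Finset.coe_image, Set.mem_image]
      exact ⟨_, h', by ring⟩⟩
    obtain ⟨d', hd'⟩ := conj_mul_pow d (perm Γ π) k
    refine ⟨MulAut.conj d * perm Γ π, k, d', hk, ?_, ?_⟩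
    · rw [hd', ← map_pow, hπk, map_one, mul_one]
    · intro x hx
      apply hι
      rw [map_mul, map_mul, map_inv, hj, hj]
      ext n
      · have h1 : ((MulAut.conj d * perm Γ π) x).1 n =
            d.1 n * x.1 (π⁻¹ n) * (d.1 n)⁻¹ := rfl
        have h2 : (ι g * ⟨x.1, 0⟩ * (ι g)⁻¹).f n =
            (ι g).f n * x.1 (n - (ι g).m) * ((ι g).f n)⁻¹ := by simp
        refine h1.trans (Eq.trans ?_ h2.symm)
        by_cases h : n - (ι g).m ∈ S
        · have h3 : π⁻¹ n = n - (ι g).m := by
            rw [Equiv.Perm.inv_eq_iff_eq, hπ _ h]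
            ring
          have h4 : d.1 n = (ι g).f n := if_pos h
          rw [h3, h4]
        · have h3 : x.1 (n - (ι g).m) = 1 := by
            by_contra h4
            exact h (hS x hx _ h4)
          have h5 : x.1 (π⁻¹ n) = 1 := by
            by_contra h4
            have h6 := hS x hx _ h4
            have h7 := hπ _ h6
            rw [show π (π⁻¹ n) = n from π.apply_symm_apply n] at h7
            apply h
            rw [h7]
            simpa using h6
          rw [h3, h5]
          simp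
      · simp

end

end Pool.Agent.Y70.FJ
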